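import Mathlib

/-!
# Skew products over `z ↦ z^d`
-/

set_option autoImplicit false

namespace Pool.Agent.H72R3.SK

open Set Filter Topology

/-- `F(z₁, z₂, z₃) = (z₁^d, G_{z₁}(z₂, z₃))` is holomorphic and for every `l` of modulus one the map
`G_l` is a holomorphic automorphism of `ℂ²` which fixes the origin, all the eigenvalues of its
derivative at the origin being of modulus less than one. -/
structure IsSkewProduct (d : ℕ) (G : ℂ → ℂ × ℂ → ℂ × ℂ) (F : ℂ × ℂ × ℂ → ℂ × ℂ × ℂ) : Prop where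
  eq : ∀ z, F z = (z.1 ^ d, G z.1 z.2)
  holomorphic : Differentiable ℂ F
  automorphism : ∀ l : ℂ, ‖l‖ = 1 → Differentiable ℂ (G l) ∧ ∃ H : ℂ × ℂ → ℂ × ℂ,
    Differentiable ℂ H ∧ (∀ w, H (G l w) = w) ∧ ∀ w, G l (H w) = w
  fixed : ∀ l : ℂ, ‖l‖ = 1 → G l 0 = 0
  attracting : ∀ l : ℂ, ‖l‖ = 1 → ∀ (m : ℂ) (w : ℂ × ℂ), w ≠ 0 →
    fderiv ℂ (G l) 0 w = m • w → ‖m‖ < 1

/-- The stable manifold of `(p, 0, 0)`, in the fibre over `p`. -/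
def stableManifold (F : ℂ × ℂ × ℂ → ℂ × ℂ × ℂ) (p : ℂ) : Set (ℂ × ℂ) :=
  {w | Tendsto (fun n : ℕ => ‖F^[n] (p, w) - F^[n] (p, 0)‖) atTop (𝓝 0)}

/-- There is a holomorphic bijection of `ℂ²` onto `S ⊂ ℂ²`. -/
def IsHolomorphicImage (S : Set (ℂ × ℂ)) : Prop :=
  ∃ Φ : ℂ × ℂ → ℂ × ℂ, Differentiable ℂ Φ ∧ Function.Injective Φ ∧ range Φ = S

end Pool.Agent.H72R3.SK
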