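import Pool.Agent.H72R3.SK.Defs

/-!
# The example
-/

set_option autoImplicit false

namespace Pool.Agent.H72R3.SK

open Set Filter Topology

/-- interpolating function with `h p = 1`, `h q = -1` -/
noncomputable def hh (p q l : ℂ) : ℂ := (2 * l - p - q) / (p - q)

/-- the fibre maps -/
noncomputable def GG (p q l : ℂ) (w : ℂ × ℂ) : ℂ × ℂ :=
  ((1 / 2) * (Complex.exp (2 * hh p q l) * w.2), (1 / 2) * (Complex.exp (-(2 * hh p q l)) * w.1))

/-- the skew product -/
noncomputable def FF (d : ℕ) (p q : ℂ) (z : ℂ × ℂ × ℂ) : ℂ × ℂ × ℂ := (z.1 ^ d, GG p q z.1 z.2)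

lemma FF_diff (d : ℕ) (p q : ℂ) : Differentiable ℂ (FF d p q) := by
  unfold FF GG hh
  fun_prop

lemma GG_diff (p q l : ℂ) : Differentiable ℂ (GG p q l) := by
  unfold GG
  fun_prop

/-- linear version -/
noncomputable def Glin (p q l : ℂ) : ℂ × ℂ →L[ℂ] ℂ × ℂ :=
  (((1 / 2) * Complex.exp (2 * hh p q l)) • ContinuousLinearMap.snd ℂ ℂ ℂ).prod
    (((1 / 2) * Complex.exp (-(2 * hh p q l))) • ContinuousLinearMap.fst ℂ ℂ ℂ)

lemma Glin_apply (p q l : ℂ) (w : ℂ × ℂ) : Glin p q l w = GG p q l w := by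
  unfold Glin GG
  ext
  · simp; ring
  · simp; ring

lemma fderiv_GG (p q l : ℂ) : fderiv ℂ (GG p q l) 0 = Glin p q l := by
  have : GG p q l = Glin p q l := by
    ext1 w
    exact (Glin_apply p q l w).symm
  rw [this]
  exact (Glin p q l).fderiv

lemma isSkew (d : ℕ) (p q : ℂ) : IsSkewProduct d (GG p q) (FF d p q) where
  eq := fun _ => rfl
  holomorphic := FF_diff d p q
  automorphism := by
    intro l _
    refine ⟨GG_diff p q l, fun w => (2 * (Complex.exp (2 * hh p q l) * w.2),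
      2 * (Complex.exp (-(2 * hh p q l)) * w.1)), by fun_prop, ?_, ?_⟩
    · intro w
      have h : Complex.exp (2 * hh p q l) * Complex.exp (-(2 * hh p q l)) = 1 := by
        rw [← Complex.exp_add, add_neg_cancel, Complex.exp_zero]
      unfold GG
      ext
      · simp only
        linear_combination w.1 * h
      · simp only
        linear_combination w.2 * h
    · intro w
      have h : Complex.exp (2 * hh p q l) * Complex.exp (-(2 * hh p q l)) = 1 := by
        rw [← Complex.exp_add, add_neg_cancel, Complex.exp_zero]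
      unfold GG
      ext
      · simp only
        linear_combination w.1 * h
      · simp only
        linear_combination w.2 * h
  fixed := by
    intro l _
    unfold GG
    simp
  attracting := by
    intro l _ m w hw h
    rw [fderiv_GG, Glin_apply] at h
    have h1 : (1 / 2) * (Complex.exp (2 * hh p q l) * w.2) = m * w.1 := congrArg Prod.fst h
    have h2 : (1 / 2) * (Complex.exp (-(2 * hh p q l)) * w.1) = m * w.2 := congrArg Prod.snd h
    have he : Complex.exp (2 * hh p q l) * Complex.exp (-(2 * hh p q l)) = 1 := by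
      rw [← Complex.exp_add, add_neg_cancel, Complex.exp_zero]
    have h3 : m ^ 2 * w.1 = (1 / 4) * w.1 := by
      linear_combination (-m) * h1 - (1 / 2) * Complex.exp (2 * hh p q l) * h2 +
        (1 / 4) * w.1 * he
    have h4 : m ^ 2 * w.2 = (1 / 4) * w.2 := by
      linear_combination (-m) * h2 - (1 / 2) * Complex.exp (-(2 * hh p q l)) * h1 +
        (1 / 4) * w.2 * he
    have h5 : m ^ 2 = 1 / 4 := by
      rcases eq_or_ne w.1 0 with h0 | h0
      · have h6 : w.2 ≠ 0 := by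
          intro h7
          exact hw (Prod.ext h0 h7)
        exact mul_right_cancel₀ h6 h4
      · exact mul_right_cancel₀ h0 h3
    have h6 : ‖m‖ ^ 2 = 1 / 4 := by
      rw [← norm_pow, h5]
      norm_num
    by_contra hcon
    push Not at hcon
    nlinarith

lemma exp_int_ge : (4 : ℝ) ≤ Real.exp 2 := by
  have h := Real.add_one_le_exp (1 : ℝ)
  have h2 : Real.exp 2 = Real.exp 1 * Real.exp 1 := by rw [← Real.exp_add]; norm_num
  rw [h2]
  nlinarith

/-- the second iterate on the fibre over `p` -/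
lemma two_step {d : ℕ} {p q : ℂ} (hpq : p ≠ q) (h1 : p ^ d = q) (h2 : q ^ d = p) (w : ℂ × ℂ) :
    FF d p q (FF d p q (p, w)) =
      (p, (1 / 4) * (Complex.exp (-4) * w.1), (1 / 4) * (Complex.exp 4 * w.2)) := by
  have hne : p - q ≠ 0 := sub_ne_zero.2 hpq
  have e1 : hh p q p = 1 := by
    unfold hh
    rw [div_eq_one_iff_eq hne]
    ring
  have e2 : hh p q q = -1 := by
    unfold hh
    rw [div_eq_iff hne]
    ring
  have f4 : Complex.exp 4 = Complex.exp 2 * Complex.exp 2 := by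
    rw [← Complex.exp_add]; norm_num
  have f5 : Complex.exp (-4) = Complex.exp (-2) * Complex.exp (-2) := by
    rw [← Complex.exp_add]; norm_num
  unfold FF GG
  simp only [h1, h2, e1, e2, mul_one, mul_neg, neg_neg, f4, f5]
  ext
  · rfl
  · simp only
    ring
  · simp only
    ring

lemma iter_even {d : ℕ} {p q : ℂ} (hpq : p ≠ q) (h1 : p ^ d = q) (h2 : q ^ d = p) (n : ℕ)
    (w : ℂ × ℂ) : (FF d p q)^[2 * n] (p, w) =
      (p, ((1 / 4) * Complex.exp (-4)) ^ n * w.1, ((1 / 4) * Complex.exp 4) ^ n * w.2) := by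
  induction n with
  | zero => simp
  | succ n ih =>
    rw [mul_add, mul_one, add_comm, Function.iterate_add_apply, ih]
    show FF d p q (FF d p q _) = _
    rw [two_step hpq h1 h2, pow_succ, pow_succ]
    ext
    · rfl
    · simp only
      ring
    · simp only
      ring

lemma exp4_norm : 1 ≤ ‖(1 / 4) * Complex.exp 4‖ := by
  have h := exp_int_ge
  have h2 : Real.exp 4 = Real.exp 2 * Real.exp 2 := by rw [← Real.exp_add]; norm_num
  have h3 : ‖Complex.exp 4‖ = Real.exp 4 := by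
    rw [Complex.norm_exp]
    norm_num
  rw [norm_mul, h3, h2]
  norm_num
  nlinarith

/-- points of the stable manifold lie in the line -/
lemma stable_sub {d : ℕ} {p q : ℂ} (hpq : p ≠ q) (h1 : p ^ d = q) (h2 : q ^ d = p)
    {w : ℂ × ℂ} (hw : w ∈ stableManifold (FF d p q) p) : w.2 = 0 := by
  by_contra h0
  have ht : Tendsto (fun n : ℕ => 2 * n) atTop atTop :=
    tendsto_id.const_mul_atTop' (by norm_num)
  have h3 := Filter.Tendsto.comp hw ht
  have h4 : ∀ n : ℕ, ‖w.2‖ ≤ ‖(FF d p q)^[2 * n] (p, w) - (FF d p q)^[2 * n] (p, 0)‖ := by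
    intro n
    rw [iter_even hpq h1 h2, iter_even hpq h1 h2]
    have h5 : ‖((1 / 4) * Complex.exp 4) ^ n * w.2‖ ≤
        ‖((p, ((1 / 4) * Complex.exp (-4)) ^ n * w.1, ((1 / 4) * Complex.exp 4) ^ n * w.2) :
          ℂ × ℂ × ℂ) - (p, ((1 / 4) * Complex.exp (-4)) ^ n * (0 : ℂ × ℂ).1,
            ((1 / 4) * Complex.exp 4) ^ n * (0 : ℂ × ℂ).2)‖ := by
      have h6 := norm_snd_le ((((p, ((1 / 4) * Complex.exp (-4)) ^ n * w.1,
        ((1 / 4) * Complex.exp 4) ^ n * w.2) : ℂ × ℂ × ℂ) -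
        (p, ((1 / 4) * Complex.exp (-4)) ^ n * (0 : ℂ × ℂ).1,
            ((1 / 4) * Complex.exp 4) ^ n * (0 : ℂ × ℂ).2)).2)
      have h7 := norm_snd_le (((p, ((1 / 4) * Complex.exp (-4)) ^ n * w.1,
        ((1 / 4) * Complex.exp 4) ^ n * w.2) : ℂ × ℂ × ℂ) -
        (p, ((1 / 4) * Complex.exp (-4)) ^ n * (0 : ℂ × ℂ).1,
            ((1 / 4) * Complex.exp 4) ^ n * (0 : ℂ × ℂ).2))
      refine le_trans (le_of_eq ?_) (h6.trans h7)
      simp
    refine le_trans ?_ h5
    rw [norm_mul, norm_pow]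
    have h8 := one_le_pow₀ exp4_norm (n := n)
    have h9 := norm_nonneg w.2
    nlinarith
  have h5 : ‖w.2‖ ≤ 0 := ge_of_tendsto h3 (Eventually.of_forall h4)
  exact h0 (norm_le_zero_iff.1 h5)

/-- no holomorphic function of two variables is injective -/
lemma no_inj {f : ℂ × ℂ → ℂ} (hf : Differentiable ℂ f) : ¬ Function.Injective f := by
  intro hinj
  have h1 : Differentiable ℂ fun z : ℂ => f (z, 0) := hf.comp (by fun_prop)
  have h2 : AnalyticAt ℂ (fun z : ℂ => f (z, 0)) 0 := h1.analyticAt 0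
  rcases h2.eventually_constant_or_nhds_le_map_nhds with h | h
  · have h3 : ∃ᶠ z in 𝓝[≠] (0 : ℂ), f (z, 0) = f (0, 0) :=
      (h.filter_mono nhdsWithin_le_nhds).frequently
    have h4 : ∃ᶠ z in 𝓝[≠] (0 : ℂ), f (z, 0) = f (0, 0) ∧ z ≠ 0 :=
      h3.and_eventually self_mem_nhdsWithin
    obtain ⟨z, hz, hz0⟩ := h4.exists
    have := hinj hz
    simp at this
    exact hz0 this
  · have h3 : Tendsto (fun t : ℂ => f (0, t)) (𝓝[≠] 0) (𝓝 (f (0, 0))) := by
      have h4 : Continuous fun t : ℂ => f (0, t) := hf.continuous.comp (by fun_prop)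
      exact (h4.tendsto 0).mono_left nhdsWithin_le_nhds
    have h4 : range (fun z : ℂ => f (z, 0)) ∈ 𝓝 (f (0, 0)) := h (by simp)
    have h5 : ∀ᶠ t : ℂ in 𝓝[≠] 0, f (0, t) ∈ range (fun z : ℂ => f (z, 0)) := h3 h4
    obtain ⟨t, ⟨z, hz⟩, ht⟩ := (h5.and self_mem_nhdsWithin).exists
    have h6 := hinj hz
    have h7 : (0 : ℂ) = t := congrArg Prod.snd h6
    exact ht h7.symm

theorem exists_example (d : ℕ) (hd : 2 ≤ d) : ∃ (G : ℂ → ℂ × ℂ → ℂ × ℂ)
    (F : ℂ × ℂ × ℂ → ℂ × ℂ × ℂ) (p : ℂ), IsSkewProduct d G F ∧ ‖p‖ = 1 ∧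
      ¬ IsHolomorphicImage (stableManifold F p) := by
  have hn : d ^ 2 - 1 ≠ 0 := by
    have : 2 ^ 2 ≤ d ^ 2 := Nat.pow_le_pow_left hd 2
    omega
  set p : ℂ := Complex.exp (2 * Real.pi * Complex.I / ((d ^ 2 - 1 : ℕ) : ℂ)) with hp
  have hprim : IsPrimitiveRoot p (d ^ 2 - 1) := Complex.isPrimitiveRoot_exp _ hn
  have hnorm : ‖p‖ = 1 := hprim.norm'_eq_one hn
  have h2 : (p ^ d) ^ d = p := by
    rw [← pow_mul, ← pow_two]
    have : d ^ 2 = (d ^ 2 - 1) + 1 := by
      have : 2 ^ 2 ≤ d ^ 2 := Nat.pow_le_pow_left hd 2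
      omega
    rw [this, pow_succ, hprim.pow_eq_one, one_mul]
  have hpq : p ≠ p ^ d := by
    intro h
    have h3 : p ^ (d - 1) = 1 := by
      have h4 : p ^ d = p ^ (d - 1) * p := by
        rw [← pow_succ]
        congr 1
        omega
      rw [h4] at h
      have hp0 : p ≠ 0 := Complex.exp_ne_zero _
      have h5 : p ^ (d - 1) * p = 1 * p := by rw [one_mul]; exact h.symm
      exact mul_right_cancel₀ hp0 h5
    refine hprim.pow_ne_one_of_pos_of_lt (by omega) ?_ h3
    have : 2 * d ≤ d ^ 2 := by nlinarith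
    omega
  refine ⟨GG p (p ^ d), FF d p (p ^ d), p, isSkew d p (p ^ d), hnorm, ?_⟩
  rintro ⟨Φ, hΦ, hinj, hrange⟩
  have h3 : ∀ z, (Φ z).2 = 0 := by
    intro z
    have : Φ z ∈ stableManifold (FF d p (p ^ d)) p := by
      rw [← hrange]
      exact ⟨z, rfl⟩
    exact stable_sub hpq rfl h2 this
  have h4 : Differentiable ℂ fun z => (Φ z).1 := hΦ.fst
  apply no_inj h4
  intro a b hab
  exact hinj (Prod.ext hab (by rw [h3, h3]))

end Pool.Agent.H72R3.SK
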